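import Pool.Agent.Helper65.JL.Stmts
import Pool.Agent.Helper68.TK.FINE

/-! # Row FIN of the sheet JL (MP_5c2ead_an) -/

set_option autoImplicit false

open Set Filter Topology Pool.Agent.Helper86.TK Pool.Agent.Helper65.JL

namespace Pool.Agent.Helper12.JL

theorem st_FIN (hLIM : ST_LIM) : ST_FIN := by
  intro Γ r η hP θ hθ0 L hL
  by_contra hinf
  have hinf' : {x : Γ | θ ≤ η x ∧ ∃ l ∈ L, ‖UX r η x - l‖ ≤ θ / 4}.Infinite := hinf
  obtain ⟨s, hs, hmem⟩ : ∃ s : ℕ → Γ, Function.Injective s ∧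
      ∀ n, θ ≤ η (s n) ∧ ∃ l ∈ L, ‖UX r η (s n) - l‖ ≤ θ / 4 :=
    ⟨fun n => (hinf'.natEmbedding _ n : Γ),
      fun a b hab => (hinf'.natEmbedding _).injective (Subtype.ext hab),
      fun n => (hinf'.natEmbedding _ n).2⟩
  choose hη hex using hmem
  choose l hl hd using hex
  set U : Ultrafilter ℕ := hyperfilter ℕ with hU
  obtain ⟨l₀, hl₀, hw⟩ := fine_weak U L hL l hl
  classical
  let x : ℕ → Bool := fun m => decide (∀ᶠ n in (U : Filter ℕ), r (s n) m = true)
  have hx : ∀ m, ∀ᶠ n in (U : Filter ℕ), r (s n) m = x m := by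
    intro m
    by_cases h : ∀ᶠ n in (U : Filter ℕ), r (s n) m = true
    · have hxm : x m = true := decide_eq_true h
      rw [hxm]
      exact h
    · have hxm : x m = false := decide_eq_false h
      rw [hxm]
      have h2 := Ultrafilter.eventually_not.2 h
      filter_upwards [h2] with n hn
      exact Bool.eq_false_iff.2 hn
  have hx2 : ∀ m, ∀ᶠ n in (U : Filter ℕ), nd (r (s n)) m = nd x m := by
    intro m
    have h1 : ∀ᶠ n in (U : Filter ℕ), ∀ i ∈ Finset.range m, r (s n) i = x i :=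
      (Finset.eventually_all (Finset.range m)).2 fun i _ => hx i
    filter_upwards [h1] with n hn
    exact fine_nd _ _ m fun i hi => hn i (Finset.mem_range.2 hi)
  have hb : ∀ m, 3 / 4 * θ ≤ l₀.1.2 (nd x m) := by
    intro m
    have h1 : Tendsto (fun n => (l n).1.2 (nd x m)) U (𝓝 (l₀.1.2 (nd x m))) :=
      hw (fine_cs r η (nd x m))
    refine ge_of_tendsto h1 ?_
    filter_upwards [hx2 m] with n hn
    have h2 := (fine_snd r η (UX r η (s n) - l n) (nd x m)).trans (hd n)
    have h3 : (UX r η (s n) - l n).1.2 (nd x m) =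
        (η (s n) * ind (r (s n)) 0 (nd x m)) - (l n).1.2 (nd x m) := rfl
    rw [h3, ← hn, fine_ind, hn] at h2
    have h5 := (abs_le.1 h2).2
    have h6 := hη n
    linarith
  obtain ⟨hz1, hz2⟩ := hLIM Γ r η hP l₀.1 l₀.2
  by_cases hxr : x ∈ range r
  · obtain ⟨z, hz⟩ := hxr
    have h1 := hz1 z
    rw [hz] at h1
    have h2 : 3 / 4 * θ ≤ η z * l₀.1.1 z := ge_of_tendsto h1 (Filter.Eventually.of_forall hb)
    have h3 : Tendsto (fun n => (l n).1.1 z) U (𝓝 (l₀.1.1 z)) := hw (fine_cf r η z)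
    have h4 : l₀.1.1 z ≤ θ / 4 := by
      refine le_of_tendsto h3 ?_
      have h5 : ∀ᶠ n in (U : Filter ℕ), s n ≠ z := by
        have h6 : ∀ᶠ n in (cofinite : Filter ℕ), s n ≠ z := by
          rw [Filter.eventually_cofinite]
          refine Set.Subsingleton.finite ?_
          intro a ha b hb'
          simp only [ne_eq, not_not, Set.mem_ofPred_eq] at ha hb'
          exact hs (ha.trans hb'.symm)
        exact (Filter.hyperfilter_le_cofinite (α := ℕ)) h6
      filter_upwards [h5] with n hn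
      have h7 := (fine_fst r η (UX r η (s n) - l n) z).trans (hd n)
      have h8 : (UX r η (s n) - l n).1.1 z =
          ((lp.single 2 (s n) (1 : ℝ) : E2 Γ) z) - (l n).1.1 z := rfl
      rw [h8, lp.single_apply_ne 2 (s n) _ hn.symm] at h7
      have h9 := (abs_le.1 h7).1
      linarith
    have h10 := (hP.2 z).2
    have h11 := (hP.2 z).1
    nlinarith
  · have h1 := hz2 x hxr
    have h2 : 3 / 4 * θ ≤ 0 := ge_of_tendsto h1 (Filter.Eventually.of_forall hb)
    linarith

end Pool.Agent.Helper12.JL
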